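import Mathlib

/-!
# A 4-ball in `S² × ℝ²` whose projection to `S²` is an open map

For complex numbers `a`, `b` with `|a| ≤ 1`, `|b| ≤ 2` let `e (a, b) = (b + 1 / a, b)`, a point of
`(ℂ ∪ {∞}) × ℂ = S² × ℝ²`. This is an embedding of `D² × D² = D⁴`. Its image is the set `X` of all
`(s, v)` with `|v| ≤ 2`, `|v - s| ≥ 1`. If `(s, v)` is in `X`, then there are `v'` as close to `v`
as one likes with `|v'| ≤ 2`, `|v' - s| > 1`, and `(s', v')` is in `X` for all `s'` near `s`; hence
the projection of `X` to `S²` is open.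

In the sphere of `ℝ³`, `hopf z w` is the point with homogeneous coordinates `[z : w]`, and the
condition `|v - s| ≥ 1` is `F s v ≥ 0`.
-/

set_option autoImplicit false

namespace Pool.Agent.Results.MP_2fe121_gt.BallWithOpenProjection

open Metric Set Filter Topology ComplexConjugate

abbrev E3 := EuclideanSpace ℝ (Fin 3)

/-- the point of the sphere with homogeneous coordinates `[z : w]` -/
noncomputable def hopf (z w : ℂ) : E3 :=
  !₂[2 * (z.re * w.re + z.im * w.im) / (Complex.normSq z + Complex.normSq w),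
    2 * (z.im * w.re - z.re * w.im) / (Complex.normSq z + Complex.normSq w),
    (Complex.normSq z - Complex.normSq w) / (Complex.normSq z + Complex.normSq w)]

noncomputable def F (s : E3) (v : ℂ) : ℝ :=
  Complex.normSq v * (1 - s 2) + 2 * s 2 - 2 * (v.re * s 0 + v.im * s 1)

lemma mem_S2 {s : E3} : s ∈ sphere (0 : E3) 1 ↔ s 0 ^ 2 + s 1 ^ 2 + s 2 ^ 2 = 1 := by
  rw [mem_sphere_zero_iff_norm, EuclideanSpace.norm_eq, Fin.sum_univ_three]
  simp only [Real.norm_eq_abs, sq_abs, Real.sqrt_eq_one]

lemma hopf_mem {z w : ℂ} (h : Complex.normSq z + Complex.normSq w ≠ 0) :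
    hopf z w ∈ sphere (0 : E3) 1 := by
  rw [mem_S2]
  simp only [hopf, PiLp.toLp_apply, Matrix.cons_val_zero, Matrix.cons_val_one, Matrix.cons_val]
  field_simp
  simp only [Complex.normSq_apply]
  ring

/-- `F` on the point `[z : w]` -/
lemma F_hopf {z w : ℂ} (v : ℂ) (h : Complex.normSq z + Complex.normSq w ≠ 0) :
    F (hopf z w) v * (Complex.normSq z + Complex.normSq w) =
      2 * (Complex.normSq (z - v * w) - Complex.normSq w) := by
  simp only [F, hopf, PiLp.toLp_apply, Matrix.cons_val_zero, Matrix.cons_val_one, Matrix.cons_val]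
  field_simp
  simp only [Complex.normSq_apply, Complex.sub_re, Complex.sub_im, Complex.mul_re, Complex.mul_im]
  ring

/-- the homogeneous coordinates are determined by the point -/
lemma hopf_inj {z w z' w' : ℂ} (h : Complex.normSq z + Complex.normSq w ≠ 0)
    (h' : Complex.normSq z' + Complex.normSq w' ≠ 0) (he : hopf z w = hopf z' w') :
    z * w' = z' * w := by
  have e0 := congrArg (fun s : E3 => s 0) he
  have e1 := congrArg (fun s : E3 => s 1) he
  have e2 := congrArg (fun s : E3 => s 2) he
  simp only [hopf, PiLp.toLp_apply, Matrix.cons_val_zero, Matrix.cons_val_one,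
    Matrix.cons_val] at e0 e1 e2
  set N := Complex.normSq z + Complex.normSq w with hN
  set N' := Complex.normSq z' + Complex.normSq w' with hN'
  rw [div_eq_div_iff h h'] at e0 e1 e2
  have key : Complex.normSq (z * w' - z' * w) * (2 * N * N') = 0 := by
    have a1 : Complex.normSq (z * w' - z' * w) =
        Complex.normSq z * Complex.normSq w' + Complex.normSq z' * Complex.normSq w -
        2 * ((z.re * w.re + z.im * w.im) * (z'.re * w'.re + z'.im * w'.im) +
          (z.im * w.re - z.re * w.im) * (z'.im * w'.re - z'.re * w'.im)) := by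
      simp only [Complex.normSq_apply, Complex.sub_re, Complex.sub_im, Complex.mul_re,
        Complex.mul_im]
      ring
    have b1 : (z.re * w.re + z.im * w.im) ^ 2 + (z.im * w.re - z.re * w.im) ^ 2 =
        Complex.normSq z * Complex.normSq w := by
      simp only [Complex.normSq_apply]
      ring
    have b2 : (z'.re * w'.re + z'.im * w'.im) ^ 2 + (z'.im * w'.re - z'.re * w'.im) ^ 2 =
        Complex.normSq z' * Complex.normSq w' := by
      simp only [Complex.normSq_apply]
      ring
    rw [a1]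
    generalize z.re * w.re + z.im * w.im = u at *
    generalize z.im * w.re - z.re * w.im = t at *
    generalize z'.re * w'.re + z'.im * w'.im = u' at *
    generalize z'.im * w'.re - z'.re * w'.im = t' at *
    generalize Complex.normSq z = A at *
    generalize Complex.normSq w = B at *
    generalize Complex.normSq z' = A' at *
    generalize Complex.normSq w' = B' at *
    clear_value N N'
    have c1 : A * B' = A' * B := by
      rw [hN, hN'] at e2
      linarith
    have c2 : A * N' = A' * N := by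
      rw [hN, hN']
      linear_combination c1
    have c4 : u * N' = u' * N := by linarith
    have c5 : t * N' = t' * N := by linarith
    linear_combination (-2 * (B * N' - B' * N)) * c2 + 2 * (u * N' - u' * N) * c4 +
      2 * (t * N' - t' * N) * c5 - 2 * N' ^ 2 * b1 - 2 * N ^ 2 * b2
  have h3 : Complex.normSq (z * w' - z' * w) = 0 := by
    rcases mul_eq_zero.1 key with h4 | h4
    · exact h4
    · exact absurd h4 (mul_ne_zero (mul_ne_zero two_ne_zero h) h')
  exact sub_eq_zero.1 (Complex.normSq_eq_zero.1 h3)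

/-- every point of the sphere has homogeneous coordinates -/
lemma hopf_surj {s : E3} (hs : s ∈ sphere (0 : E3) 1) :
    ∃ z w : ℂ, Complex.normSq z + Complex.normSq w ≠ 0 ∧ hopf z w = s := by
  rw [mem_S2] at hs
  by_cases h : s 2 = 1
  · have h0 : s 0 = 0 := by
      rw [h] at hs
      nlinarith [sq_nonneg (s 0), sq_nonneg (s 1)]
    have h1 : s 1 = 0 := by
      rw [h] at hs
      nlinarith [sq_nonneg (s 0), sq_nonneg (s 1)]
    refine ⟨1, 0, by simp, ?_⟩
    ext i
    fin_cases i <;> simp [hopf, h, h0, h1]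
  · have h2 : (1 : ℝ) - s 2 ≠ 0 := fun h3 => h (by linarith)
    have hN : Complex.normSq (⟨s 0, s 1⟩ : ℂ) + Complex.normSq (⟨1 - s 2, 0⟩ : ℂ) =
        2 * (1 - s 2) := by
      simp only [Complex.normSq_apply]
      linarith [hs, sq (s 0), sq (s 1), sq (s 2)]
    refine ⟨⟨s 0, s 1⟩, ⟨1 - s 2, 0⟩, ?_, ?_⟩
    · rw [hN]
      exact mul_ne_zero two_ne_zero h2
    · ext i
      fin_cases i
      · simp only [hopf, hN]
        simp
        field_simp
      · simp only [hopf, hN]
        simp
        field_simp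
      · simp only [hopf, hN]
        simp only [Complex.normSq_apply]
        simp
        field_simp
        nlinarith [hs]

lemma hopf_smul {z w : ℂ} (c : ℂ) (hc : c ≠ 0) : hopf (c * z) (c * w) = hopf z w := by
  have hn : Complex.normSq c ≠ 0 := fun h => hc (Complex.normSq_eq_zero.1 h)
  unfold hopf
  simp only [Complex.normSq_mul]
  rw [← mul_add, ← mul_sub]
  congr 1
  have e1 : (c * z).re * (c * w).re + (c * z).im * (c * w).im =
      Complex.normSq c * (z.re * w.re + z.im * w.im) := by
    simp only [Complex.normSq_apply, Complex.mul_re, Complex.mul_im]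
    ring
  have e2 : (c * z).im * (c * w).re - (c * z).re * (c * w).im =
      Complex.normSq c * (z.im * w.re - z.re * w.im) := by
    simp only [Complex.normSq_apply, Complex.mul_re, Complex.mul_im]
    ring
  rw [e1, e2, mul_left_comm, mul_left_comm 2, mul_div_mul_left _ _ hn, mul_div_mul_left _ _ hn,
    mul_div_mul_left _ _ hn]

/-- the function `F s` has no local maximum with value `0` on the disk `|v| ≤ 2` -/
lemma star {s : E3} (hs : s ∈ sphere (0 : E3) 1) {v : ℂ} (hv : ‖v‖ ≤ 2) (hF : 0 ≤ F s v)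
    {O : Set ℂ} (hO : O ∈ 𝓝 v) : ∃ v' ∈ O, ‖v'‖ ≤ 2 ∧ 0 < F s v' := by
  rcases hF.lt_or_eq with h | h
  · exact ⟨v, mem_of_mem_nhds hO, hv, h⟩
  rw [mem_S2] at hs
  have h1 : s 2 < 1 := by
    by_contra hc
    have h2 : s 2 = 1 := by nlinarith [sq_nonneg (s 0), sq_nonneg (s 1)]
    have h0 : s 0 = 0 := by
      rw [h2] at hs
      nlinarith [sq_nonneg (s 0), sq_nonneg (s 1)]
    have h3 : s 1 = 0 := by
      rw [h2] at hs
      nlinarith [sq_nonneg (s 0), sq_nonneg (s 1)]
    unfold F at h
    rw [h0, h2, h3] at h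
    norm_num at h
  have hpos : ∀ᶠ t : ℝ in 𝓝[>] 0, t ∈ Ioo (0 : ℝ) 1 := Ioo_mem_nhdsGT (by norm_num)
  rcases hv.lt_or_eq with hlt | heq
  · -- interior points: move in a real direction
    obtain ⟨d, hd, hd2⟩ : ∃ d : ℝ, 0 ≤ d * ((1 - s 2) * v.re - s 0) ∧ d ^ 2 = 1 := by
      rcases le_total 0 ((1 - s 2) * v.re - s 0) with hc | hc
      · exact ⟨1, by simpa using hc, by norm_num⟩
      · exact ⟨-1, by simpa using hc, by norm_num⟩
    have hcont : Tendsto (fun t : ℝ => v + ((t * d : ℝ) : ℂ)) (𝓝[>] 0) (𝓝 v) := by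
      have hc : Continuous (fun t : ℝ => v + ((t * d : ℝ) : ℂ)) := by fun_prop
      have := hc.tendsto 0
      simp only [zero_mul, Complex.ofReal_zero, add_zero] at this
      exact this.mono_left nhdsWithin_le_nhds
    have ho2 : {v' : ℂ | ‖v'‖ < 2} ∈ 𝓝 v := (isOpen_lt continuous_norm continuous_const).mem_nhds hlt
    obtain ⟨t, ht, ht1, ht2⟩ :=
      ((hpos.and ((hcont.eventually hO).and (hcont.eventually ho2))).exists)
    refine ⟨_, ht1, le_of_lt ht2, ?_⟩
    have e : F s (v + ((t * d : ℝ) : ℂ)) =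
        F s v + 2 * t * (d * ((1 - s 2) * v.re - s 0)) + t ^ 2 * d ^ 2 * (1 - s 2) := by
      unfold F
      simp only [Complex.normSq_apply, Complex.add_re, Complex.add_im, Complex.ofReal_re,
        Complex.ofReal_im]
      ring
    rw [e, ← h, hd2]
    have h5 : 0 ≤ 2 * t * (d * ((1 - s 2) * v.re - s 0)) :=
      mul_nonneg (mul_nonneg zero_le_two ht.1.le) hd
    have h6 : 0 < t ^ 2 * 1 * (1 - s 2) := by
      have := ht.1
      have h7 : 0 < 1 - s 2 := by linarith
      positivity
    linarith
  · -- boundary points: rotate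
    have hn : Complex.normSq v = 4 := by
      rw [Complex.normSq_eq_norm_sq, heq]
      norm_num
    obtain ⟨d, hd, hd2⟩ : ∃ d : ℝ, 0 ≤ d * (v.re * s 1 - v.im * s 0) * (-1) ∧ (d = 1 ∨ d = -1) := by
      rcases le_total 0 (v.re * s 1 - v.im * s 0) with hc | hc
      · exact ⟨-1, by simpa using hc, Or.inr rfl⟩
      · exact ⟨1, by simpa using hc, Or.inl rfl⟩
    have hcont : Tendsto (fun t : ℝ => v * (⟨Real.cos t, d * Real.sin t⟩ : ℂ)) (𝓝[>] 0) (𝓝 v) := by
      have hc : Continuous (fun t : ℝ => v * (⟨Real.cos t, d * Real.sin t⟩ : ℂ)) := by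
        have : (fun t : ℝ => v * (⟨Real.cos t, d * Real.sin t⟩ : ℂ)) =
            fun t : ℝ => v * (((Real.cos t : ℝ) : ℂ) + ((d * Real.sin t : ℝ) : ℂ) * Complex.I) := by
          funext t
          congr 1
          apply Complex.ext
          · simp only [Complex.add_re, Complex.mul_re, Complex.ofReal_re, Complex.ofReal_im,
              Complex.I_re, Complex.I_im]
            ring
          · simp only [Complex.add_im, Complex.mul_im, Complex.ofReal_re, Complex.ofReal_im,
              Complex.I_re, Complex.I_im]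
            ring
        rw [this]
        fun_prop
      have h2 := hc.tendsto 0
      have e : v * (⟨Real.cos 0, d * Real.sin 0⟩ : ℂ) = v := by
        have : (⟨Real.cos 0, d * Real.sin 0⟩ : ℂ) = 1 := by
          apply Complex.ext <;> simp
        rw [this, mul_one]
      rw [e] at h2
      exact h2.mono_left nhdsWithin_le_nhds
    obtain ⟨t, ht, ht1⟩ := ((hpos.and (hcont.eventually hO)).exists)
    have hd1 : d ^ 2 = 1 := by rcases hd2 with rfl | rfl <;> norm_num
    have hcs := Real.sin_sq_add_cos_sq t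
    refine ⟨_, ht1, ?_, ?_⟩
    · have : ‖(⟨Real.cos t, d * Real.sin t⟩ : ℂ)‖ = 1 := by
        have h2 : Complex.normSq (⟨Real.cos t, d * Real.sin t⟩ : ℂ) = 1 := by
          simp only [Complex.normSq_apply]
          linear_combination hcs + Real.sin t ^ 2 * hd1
        rw [Complex.normSq_eq_norm_sq] at h2
        exact (pow_eq_one_iff_of_nonneg (norm_nonneg _) two_ne_zero).1 h2
      rw [norm_mul, this, mul_one]
      exact hv
    · have hcos : Real.cos t < 1 := by
        have h2 := Real.cos_lt_cos_of_nonneg_of_le_pi (le_refl 0)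
          (le_trans ht.2.le (by linarith [Real.pi_gt_three])) ht.1
        rwa [Real.cos_zero] at h2
      have hsin : 0 ≤ Real.sin t :=
        Real.sin_nonneg_of_nonneg_of_le_pi ht.1.le
          (le_trans ht.2.le (by linarith [Real.pi_gt_three]))
      have e : F s (v * (⟨Real.cos t, d * Real.sin t⟩ : ℂ)) =
          F s v + 2 * (1 - Real.cos t) * (v.re * s 0 + v.im * s 1) +
            2 * Real.sin t * (d * (v.re * s 1 - v.im * s 0) * (-1)) := by
        unfold F
        rw [Complex.normSq_mul]
        have h2 : Complex.normSq (⟨Real.cos t, d * Real.sin t⟩ : ℂ) = 1 := by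
          simp only [Complex.normSq_apply]
          linear_combination hcs + Real.sin t ^ 2 * hd1
        rw [h2]
        simp only [Complex.mul_re, Complex.mul_im]
        ring
      have hval : v.re * s 0 + v.im * s 1 = 2 - s 2 := by
        unfold F at h
        rw [hn] at h
        linarith
      rw [e, ← h, hval]
      have h5 : 0 ≤ 2 * Real.sin t * (d * (v.re * s 1 - v.im * s 0) * (-1)) :=
        mul_nonneg (mul_nonneg zero_le_two hsin) hd
      have h6 : 0 < 2 * (1 - Real.cos t) * (2 - s 2) := by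
        have h7 : 0 < 1 - Real.cos t := by linarith
        have h8 : 0 < 2 - s 2 := by linarith
        positivity
      linarith

/-- the product of two disks -/
def K : Set (ℂ × ℂ) := closedBall (0 : ℂ) 1 ×ˢ closedBall (0 : ℂ) 2

lemma ne_zero (p : ℂ × ℂ) :
    Complex.normSq (p.1 * p.2 + 1) + Complex.normSq p.1 ≠ 0 := by
  intro h
  have h1 := Complex.normSq_nonneg (p.1 * p.2 + 1)
  have h2 := Complex.normSq_nonneg p.1
  have h3 : Complex.normSq p.1 = 0 := by linarith
  have h4 : Complex.normSq (p.1 * p.2 + 1) = 0 := by linarith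
  rw [Complex.normSq_eq_zero] at h3 h4
  rw [h3] at h4
  simp at h4

/-- the map `(a, b) ↦ [a b + 1 : a]` -/
noncomputable def g (p : ℂ × ℂ) : sphere (0 : E3) 1 :=
  ⟨hopf (p.1 * p.2 + 1) p.1, hopf_mem (ne_zero p)⟩

lemma continuous_g : Continuous g := by
  unfold g
  refine Continuous.subtype_mk ?_ _
  unfold hopf
  refine (PiLp.continuous_toLp 2 _).comp ?_
  refine continuous_pi fun i => ?_
  have hn : Continuous fun p : ℂ × ℂ => Complex.normSq (p.1 * p.2 + 1) :=
    Complex.continuous_normSq.comp (by fun_prop)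
  have hn2 : Continuous fun p : ℂ × ℂ => Complex.normSq p.1 :=
    Complex.continuous_normSq.comp (by fun_prop)
  have c1 : Continuous fun p : ℂ × ℂ => (p.1 * p.2 + 1).re :=
    Complex.continuous_re.comp (by fun_prop)
  have c2 : Continuous fun p : ℂ × ℂ => (p.1 * p.2 + 1).im :=
    Complex.continuous_im.comp (by fun_prop)
  have c3 : Continuous fun p : ℂ × ℂ => p.1.re := Complex.continuous_re.comp (by fun_prop)
  have c4 : Continuous fun p : ℂ × ℂ => p.1.im := Complex.continuous_im.comp (by fun_prop)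
  fin_cases i
  · exact Continuous.div (continuous_const.mul ((c1.mul c3).add (c2.mul c4))) (hn.add hn2) ne_zero
  · exact Continuous.div (continuous_const.mul ((c2.mul c3).sub (c1.mul c4))) (hn.add hn2) ne_zero
  · exact Continuous.div (hn.sub hn2) (hn.add hn2) ne_zero

/-- the plane as `ℂ` -/
noncomputable def pl : ℂ ≃ₗᵢ[ℝ] EuclideanSpace ℝ (Fin 2) := Complex.orthonormalBasisOneI.repr

noncomputable def G (p : K) : sphere (0 : E3) 1 × EuclideanSpace ℝ (Fin 2) :=
  (g p.1, pl p.1.2)

lemma G_inj : Function.Injective G := by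
  rintro ⟨⟨a, b⟩, hp⟩ ⟨⟨a', b'⟩, hp'⟩ h
  unfold G at h
  rw [Prod.mk.injEq] at h
  obtain ⟨h1, h2⟩ := h
  have hb : b = b' := pl.injective h2
  subst hb
  have h3 := hopf_inj (ne_zero (a, b)) (ne_zero (a', b)) (congrArg Subtype.val h1)
  have h4 : a' = a := by linear_combination h3
  subst h4
  rfl

lemma isCompact_K : IsCompact K := (isCompact_closedBall _ _).prod (isCompact_closedBall _ _)

lemma G_cont : Continuous G :=
  (continuous_g.comp continuous_subtype_val).prodMk
    (pl.continuous.comp (continuous_snd.comp continuous_subtype_val))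

lemma G_emb : IsEmbedding G := by
  have : CompactSpace K := isCompact_iff_compactSpace.1 isCompact_K
  exact (G_cont.isClosedEmbedding G_inj).isEmbedding

/-- the points of the image -/
lemma exists_of_F {s : sphere (0 : E3) 1} {v : ℂ} (hv : ‖v‖ ≤ 2) (hF : 0 ≤ F s.1 v) :
    ∃ p : K, G p = (s, pl v) := by
  obtain ⟨z, w, hN, hzw⟩ := hopf_surj s.2
  have hNpos : 0 < Complex.normSq z + Complex.normSq w :=
    lt_of_le_of_ne (add_nonneg (Complex.normSq_nonneg _) (Complex.normSq_nonneg _)) (Ne.symm hN)
  have h1 := F_hopf v hN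
  rw [hzw] at h1
  have h2 : Complex.normSq w ≤ Complex.normSq (z - v * w) := by
    have : 0 ≤ F s.1 v * (Complex.normSq z + Complex.normSq w) := mul_nonneg hF hNpos.le
    linarith
  have h3 : z - v * w ≠ 0 := by
    intro h4
    rw [h4, map_zero] at h2
    have h5 : w = 0 := Complex.normSq_eq_zero.1 (le_antisymm h2 (Complex.normSq_nonneg _))
    rw [h5, mul_zero, sub_zero] at h4
    rw [h4, h5] at hN
    simp at hN
  have h4 : 0 < Complex.normSq (z - v * w) := Complex.normSq_pos.2 h3
  have hmem : ((w / (z - v * w), v) : ℂ × ℂ) ∈ K := by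
    refine ⟨?_, ?_⟩
    · rw [mem_closedBall_zero_iff]
      have h5 : ‖w / (z - v * w)‖ ^ 2 ≤ 1 := by
        rw [← Complex.normSq_eq_norm_sq, Complex.normSq_div, div_le_one h4]
        exact h2
      have h6 := norm_nonneg (w / (z - v * w))
      nlinarith
    · rw [mem_closedBall_zero_iff]
      exact hv
  refine ⟨⟨_, hmem⟩, ?_⟩
  unfold G
  rw [Prod.mk.injEq]
  refine ⟨?_, rfl⟩
  apply Subtype.ext
  show hopf (w / (z - v * w) * v + 1) (w / (z - v * w)) = s.1
  rw [← hzw, ← hopf_smul (z := w / (z - v * w) * v + 1) (w := w / (z - v * w)) _ h3]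
  congr 1
  · field_simp
    ring
  · field_simp

lemma F_of_mem (p : K) : 0 ≤ F (g p.1).1 p.1.2 := by
  obtain ⟨⟨a, b⟩, hp⟩ := p
  have h1 := F_hopf b (ne_zero (a, b))
  have hN : 0 < Complex.normSq (a * b + 1) + Complex.normSq a :=
    lt_of_le_of_ne (add_nonneg (Complex.normSq_nonneg _) (Complex.normSq_nonneg _))
      (Ne.symm (ne_zero (a, b)))
  have ha : Complex.normSq a ≤ 1 := by
    have h2 : ‖a‖ ≤ 1 := mem_closedBall_zero_iff.1 hp.1
    rw [Complex.normSq_eq_norm_sq]
    have h3 := norm_nonneg a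
    nlinarith
  have h2 : a * b + 1 - b * a = 1 := by ring
  change F (hopf (a * b + 1) a) b * (Complex.normSq (a * b + 1) + Complex.normSq a) =
    2 * (Complex.normSq (a * b + 1 - b * a) - Complex.normSq a) at h1
  rw [h2, map_one] at h1
  show 0 ≤ F (hopf (a * b + 1) a) b
  by_contra hc
  push Not at hc
  have := mul_neg_of_neg_of_pos hc hN
  linarith

lemma open_g : IsOpenMap fun p : K => (G p).1 := by
  intro U hU
  obtain ⟨W, hW, rfl⟩ := G_emb.isInducing.isOpen_iff.1 hU
  rw [isOpen_iff_mem_nhds]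
  rintro _ ⟨p, hp, rfl⟩
  have hv : ‖p.1.2‖ ≤ 2 := mem_closedBall_zero_iff.1 p.2.2
  have hO : {v : ℂ | ((G p).1, pl v) ∈ W} ∈ 𝓝 p.1.2 := by
    have hc : Continuous fun v : ℂ => ((G p).1, pl v) :=
      continuous_const.prodMk pl.continuous
    exact (hW.preimage hc).mem_nhds hp
  obtain ⟨v, hvO, hv2, hvF⟩ := star (G p).1.2 hv (F_of_mem p) hO
  have hFc : Continuous fun s : sphere (0 : E3) 1 => F s.1 v := by
    unfold F
    have c : ∀ i : Fin 3, Continuous fun s : sphere (0 : E3) 1 => s.1 i := fun i => by fun_prop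
    have c0 := c 0
    have c1 := c 1
    have c2 := c 2
    fun_prop
  have h1 : {s : sphere (0 : E3) 1 | (s, pl v) ∈ W} ∈ 𝓝 (G p).1 := by
    have hc : Continuous fun s : sphere (0 : E3) 1 => (s, pl v) :=
      continuous_id.prodMk continuous_const
    exact (hW.preimage hc).mem_nhds hvO
  have h2 : {s : sphere (0 : E3) 1 | 0 < F s.1 v} ∈ 𝓝 (G p).1 :=
    (isOpen_lt continuous_const hFc).mem_nhds hvF
  filter_upwards [h1, h2] with s hs1 hs2
  obtain ⟨q, hq⟩ := exists_of_F hv2 hs2.le
  refine ⟨q, ?_, ?_⟩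
  · show G q ∈ W
    rw [hq]
    exact hs1
  · show (G q).1 = s
    rw [hq]

/-- the closed 4-ball is homeomorphic to the product of two disks -/
lemma ball_homeo : Nonempty (closedBall (0 : EuclideanSpace ℝ (Fin 4)) 1 ≃ₜ K) := by
  have hfr : Module.finrank ℝ (EuclideanSpace ℝ (Fin 4)) = Module.finrank ℝ (ℂ × ℂ) := by
    rw [finrank_euclideanSpace_fin, Module.finrank_prod, Complex.finrank_real_complex]
  let L : EuclideanSpace ℝ (Fin 4) ≃L[ℝ] ℂ × ℂ := ContinuousLinearEquiv.ofFinrankEq hfr
  let B : Set (ℂ × ℂ) := L '' closedBall (0 : EuclideanSpace ℝ (Fin 4)) 1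
  have hBc : IsCompact B := (isCompact_closedBall _ _).image L.continuous
  have hBconv : Convex ℝ B := 
    (convex_closedBall (0 : EuclideanSpace ℝ (Fin 4)) 1).linear_image L.toLinearEquiv.toLinearMap
  have hBint : (interior B).Nonempty := by
    have h1 : L '' ball (0 : EuclideanSpace ℝ (Fin 4)) 1 ⊆ interior B :=
      interior_maximal (image_mono ball_subset_closedBall)
        (L.toHomeomorph.isOpenMap _ isOpen_ball)
    exact ⟨L 0, h1 ⟨0, mem_ball_self one_pos, rfl⟩⟩
  have hKconv : Convex ℝ K := (convex_closedBall _ _).prod (convex_closedBall _ _)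
  have hKint : (interior K).Nonempty := by
    refine ⟨(0, 0), ?_⟩
    unfold K
    rw [interior_prod_eq]
    exact ⟨ball_subset_interior_closedBall (mem_ball_self one_pos),
      ball_subset_interior_closedBall (mem_ball_self two_pos)⟩
  obtain ⟨h, _, h2, _⟩ := exists_homeomorph_image_eq hBconv hBint
    (NormedSpace.isVonNBounded_of_isBounded ℝ hBc.isBounded) hKconv hKint
    (NormedSpace.isVonNBounded_of_isBounded ℝ isCompact_K.isBounded)
  rw [hBc.isClosed.closure_eq, isCompact_K.isClosed.closure_eq] at h2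
  have e1 : closedBall (0 : EuclideanSpace ℝ (Fin 4)) 1 ≃ₜ B := L.toHomeomorph.image _
  have e2 : B ≃ₜ h '' B := h.image B
  exact ⟨(e1.trans e2).trans (Homeomorph.setCongr h2)⟩

/-- There is an embedding of the closed 4-ball in `S² × ℝ²` whose composition with the projection
to `S²` is an open map. -/
theorem result : ∃ e : closedBall (0 : EuclideanSpace ℝ (Fin 4)) 1 →
    sphere (0 : EuclideanSpace ℝ (Fin 3)) 1 × EuclideanSpace ℝ (Fin 2),
    IsEmbedding e ∧ IsOpenMap fun x => (e x).1 := by
  obtain ⟨φ⟩ := ball_homeo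
  exact ⟨G ∘ φ, G_emb.comp φ.isEmbedding, open_g.comp φ.isOpenMap⟩

end Pool.Agent.Results.MP_2fe121_gt.BallWithOpenProjection
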